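import Pool.Agent.Helper55.FR.GoalsA

/-!
# Project FR (MP_79b960_co), packet BAR: existence of a barrier
-/

set_option autoImplicit false

namespace Pool.Agent.Helper94.FR

open Finset
open Pool.Agent.Helper55.FR

section

variable {V : Type} [Fintype V] [DecidableEq V]

/-- the number of odd components -/
def oc (Q : Finset (Finset V)) : ℕ := (Q.filter fun K => Odd K.card).card

lemma even_card {m : V → V} (mm : ∀ v, m (m v) = v) (mv : ∀ v, m v ≠ v) :
    Even (Fintype.card V) := by
  have h : ∑ x : V, (1 : ZMod 2) = 0 := by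
    refine Finset.sum_involution (fun x _ => m x) ?_ ?_ ?_ ?_
    · intro x _
      decide
    · intro x _ _
      exact mv x
    · intro x _
      exact mem_univ _
    · intro x _
      exact mm x
  rw [sum_const, card_univ, nsmul_eq_mul, mul_one] at h
  exact (ZMod.natCast_eq_zero_iff_even).1 h

/-- an odd closed set contains an odd component -/
lemma odd_comp (h1 : CompStmt) {r : V → V → Prop} (hs : ∀ x y, r x y → r y x) {T : Finset V}
    {Q : Finset (Finset V)} (hQ : Comps r T Q) {S : Finset V} (hd : Disjoint T S)
    (hcl : ∀ x ∈ S, ∀ y, r x y → y ∈ S ∨ y ∈ T) (hodd : Odd S.card) :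
    ∃ K ∈ Q, K ⊆ S ∧ Odd K.card := by
  obtain ⟨_, hc⟩ := (h1 V r hs).2 T Q hQ S hd hcl
  by_contra hcon
  push Not at hcon
  have : Even S.card := by
    rw [hc]
    apply Finset.even_sum
    intro K hK
    rw [mem_filter] at hK
    exact Nat.not_odd_iff_even.1 (hcon K hK.1 hK.2)
  exact (Nat.not_odd_iff_even.2 this) hodd

/-- the other components survive -/
lemma survive (h1 : CompStmt) {r : V → V → Prop} (hs : ∀ x y, r x y → r y x) {T : Finset V}
    {Q Q' : Finset (Finset V)} (hQ : Comps r T Q) {K : Finset V} (hK : K ∈ Q) {u : V} (hu : u ∈ K)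
    (hQ' : Comps r (insert u T) Q') : Q.erase K ⊆ Q' := by
  intro L hL
  rw [mem_erase] at hL
  obtain ⟨hLK, hLQ⟩ := hL
  have hdKL := hQ.kK K hK L hLQ hLK.symm
  have hd : Disjoint (insert u T) L := by
    rw [disjoint_insert_left]
    exact ⟨disjoint_left.1 hdKL hu, hQ.dis L hLQ⟩
  have hcl : ∀ x ∈ L, ∀ y, r x y → y ∈ L ∨ y ∈ insert u T := by
    intro x hx y hxy
    rcases hQ.cl L hLQ x hx y hxy with h | h
    · exact Or.inl h
    · exact Or.inr (mem_insert_of_mem h)
  obtain ⟨x, hx⟩ := hQ.ne L hLQ
  obtain ⟨K', hK', hxK'⟩ := hQ'.cov x (disjoint_right.1 hd hx)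
  have hpart := ((h1 V r hs).2 _ Q' hQ' L hd hcl).1 K' hK'
  have hsub : K' ⊆ L := by
    rcases hpart with h | h
    · exact h
    · exact absurd hx (disjoint_left.1 h hxK')
  have : K' = L := by
    apply hQ.con L hLQ K' hsub ⟨x, hxK'⟩
    intro a ha b hb hab
    rcases hQ'.cl K' hK' a ha b hab with h | h
    · exact h
    · exact absurd h (disjoint_right.1 hd hb)
  rw [← this]
  exact hK'

theorem bar (h1 : CompStmt) (h2 : TutStmt) : BarStmt := by
  classical
  intro V _ _ n m B g hC hB hG hP
  set r := hadj n m B with hr
  have hs : ∀ x y, r x y → r y x := by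
    intro x y h
    rcases h with h | h | ⟨h, hx⟩
    · exact Or.inr (Or.inl h)
    · exact Or.inl h
    · refine Or.inr (Or.inr ⟨?_, ?_⟩)
      · rw [h, hC.mm]
      · rw [h]; exact (hB x).1 hx
  have hirr : ∀ x, ¬ r x x := by
    intro x h
    rcases h with h | h | ⟨h, _⟩
    · exact hC.nv x h.symm
    · exact hC.nv x h.symm
    · exact hC.mv x h.symm
  obtain ⟨T0, Q0, hC0, hlt0⟩ := h2 V r hs hirr hP
  -- the maximal choice
  set N := Fintype.card V with hN
  set F : Finset (Finset V × Finset (Finset V)) :=
    univ.filter (fun p => Comps r p.1 p.2 ∧ p.1.card < oc p.2) with hF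
  have hFne : F.Nonempty := ⟨(T0, Q0), mem_filter.2 ⟨mem_univ _, hC0, hlt0⟩⟩
  obtain ⟨⟨T, Q⟩, hTQ, hmax⟩ := exists_max_image F
    (fun p => (oc p.2 - p.1.card) * (N + 1) + p.1.card) hFne
  rw [mem_filter] at hTQ
  obtain ⟨_, hQ, hlt⟩ := hTQ
  simp only at hQ hlt
  have hnomax : ∀ u ∉ T, ∀ Q', Comps r (insert u T) Q' → ¬ oc Q + 1 ≤ oc Q' := by
    intro u hu Q' hQ' hle
    have hcard : (insert u T).card = T.card + 1 := card_insert_of_notMem hu
    have h3 := hmax (insert u T, Q') (mem_filter.2 ⟨mem_univ _, hQ', by
      simp only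
      omega⟩)
    simp only at h3
    rw [hcard] at h3
    have h4 : (oc Q - T.card) * (N + 1) ≤ (oc Q' - (T.card + 1)) * (N + 1) :=
      Nat.mul_le_mul_right _ (by omega)
    omega
  -- (a) all components are odd
  have hodd : ∀ K ∈ Q, Odd K.card := by
    intro K hK
    by_contra hev
    rw [Nat.not_odd_iff_even] at hev
    obtain ⟨v, hv⟩ := hQ.ne K hK
    have hvT : v ∉ T := disjoint_right.1 (hQ.dis K hK) hv
    obtain ⟨Q', hQ'⟩ := (h1 V r hs).1 (insert v T)
    apply hnomax v hvT Q' hQ'
    have hsv := survive h1 hs hQ hK hv hQ'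
    obtain ⟨K', hK', hK'S, hK'o⟩ := odd_comp h1 hs hQ' (S := K.erase v) (by
        rw [disjoint_insert_left]
        refine ⟨notMem_erase v K, ?_⟩
        exact (hQ.dis K hK).mono_right (erase_subset _ _)) (by
        intro x hx y hxy
        rw [mem_erase] at hx
        rcases hQ.cl K hK x hx.2 y hxy with h | h
        · by_cases hyv : y = v
          · right; rw [hyv]; exact mem_insert_self _ _
          · left; rw [mem_erase]; exact ⟨hyv, h⟩
        · right; exact mem_insert_of_mem h) (by
        rw [card_erase_of_mem hv]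
        have hpos : 0 < K.card := card_pos.2 ⟨v, hv⟩
        obtain ⟨a, ha⟩ := hev
        exact ⟨a - 1, by omega⟩)
    have hsub : insert K' (Q.filter fun K => Odd K.card) ⊆ Q'.filter fun K => Odd K.card := by
      intro L hL
      rcases mem_insert.1 hL with h | h
      · rw [h, mem_filter]; exact ⟨hK', hK'o⟩
      · rw [mem_filter] at h ⊢
        refine ⟨hsv ?_, h.2⟩
        rw [mem_erase]
        refine ⟨?_, h.1⟩
        rintro rfl
        exact (Nat.not_odd_iff_even.2 hev) h.2
    have hnot : K' ∉ Q.filter fun K => Odd K.card := by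
      intro h
      rw [mem_filter] at h
      have hne : K ≠ K' := by
        rintro rfl
        exact (Nat.not_odd_iff_even.2 hev) h.2
      have hd := hQ.kK K hK K' h.1 hne
      obtain ⟨x, hx⟩ := hQ'.ne K' hK'
      exact disjoint_right.1 hd hx (erase_subset _ _ (hK'S hx))
    have hc := card_le_card hsub
    rw [card_insert_of_notMem hnot] at hc
    exact hc
  -- (b) large components
  have hbig : ∀ K ∈ Q, K.card ≠ 1 → g ≤ K.card := by
    intro K hK hK1
    apply hG K (hQ.ne K hK)
    intro v hv
    have hsub2 : (K.filter fun y => r v y) ⊆ K.filter fun y => adj n m v y := by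
      intro y hy
      rw [mem_filter] at hy ⊢
      refine ⟨hy.1, ?_⟩
      rcases hy.2 with h | h | ⟨h, _⟩
      · exact Or.inl h
      · exact Or.inr (Or.inl h)
      · exact Or.inr (Or.inr h)
    refine le_trans ?_ (card_le_card hsub2)
    have h0 : (K.filter fun y => r v y).card ≠ 0 := by
      intro h0
      rw [card_eq_zero] at h0
      have h3 : ({v} : Finset V) = K := by
        apply hQ.con K hK {v} (singleton_subset_iff.2 hv) (singleton_nonempty v)
        intro x hx y hy hxy
        rw [mem_singleton] at hx
        rw [hx] at hxy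
        have : y ∈ K.filter fun y => r v y := mem_filter.2 ⟨hy, hxy⟩
        rw [h0] at this
        exact absurd this (notMem_empty y)
      apply hK1
      rw [← h3, card_singleton]
    have h1' : (K.filter fun y => r v y).card ≠ 1 := by
      intro h1'
      obtain ⟨u, hu⟩ := card_eq_one.1 h1'
      have huK : u ∈ K ∧ r v u := by
        have : u ∈ K.filter fun y => r v y := by rw [hu]; exact mem_singleton_self u
        exact mem_filter.1 this
      have huniq : ∀ y ∈ K, r v y → y = u := by
        intro y hy hvy
        have : y ∈ K.filter fun y => r v y := mem_filter.2 ⟨hy, hvy⟩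
        rw [hu, mem_singleton] at this
        exact this
      have huv : u ≠ v := by
        rintro rfl
        exact hirr u huK.2
      have huT : u ∉ T := disjoint_right.1 (hQ.dis K hK) huK.1
      have hvT : v ∉ T := disjoint_right.1 (hQ.dis K hK) hv
      obtain ⟨Q', hQ'⟩ := (h1 V r hs).1 (insert u T)
      apply hnomax u huT Q' hQ'
      have hsv := survive h1 hs hQ hK huK.1 hQ'
      obtain ⟨K1, hK1Q, hK1S, hK1o⟩ := odd_comp h1 hs hQ' (S := {v}) (by
          rw [disjoint_singleton_right, mem_insert]
          rintro (h | h)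
          · exact huv h.symm
          · exact hvT h) (by
          intro x hx y hxy
          rw [mem_singleton] at hx
          rw [hx] at hxy
          rcases hQ.cl K hK v hv y hxy with h | h
          · right; rw [huniq y h hxy]; exact mem_insert_self _ _
          · right; exact mem_insert_of_mem h) (by
          rw [card_singleton]; exact odd_one)
      obtain ⟨K2, hK2Q, hK2S, hK2o⟩ := odd_comp h1 hs hQ' (S := (K.erase u).erase v) (by
          rw [disjoint_insert_left]
          refine ⟨?_, ?_⟩
          · intro h
            rw [mem_erase, mem_erase] at h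
            exact h.2.1 rfl
          · apply (hQ.dis K hK).mono_right
            exact (erase_subset _ _).trans (erase_subset _ _)) (by
          intro x hx y hxy
          rw [mem_erase, mem_erase] at hx
          rcases hQ.cl K hK x hx.2.2 y hxy with h | h
          · by_cases hyu : y = u
            · right; rw [hyu]; exact mem_insert_self _ _
            · by_cases hyv : y = v
              · rw [hyv] at hxy
                exact absurd (huniq x hx.2.2 (hs _ _ hxy)) hx.2.1
              · left; rw [mem_erase, mem_erase]; exact ⟨hyv, hyu, h⟩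
          · right; exact mem_insert_of_mem h) (by
          rw [card_erase_of_mem (by rw [mem_erase]; exact ⟨huv.symm, hv⟩), card_erase_of_mem huK.1]
          obtain ⟨a, ha⟩ := hodd K hK
          have : 1 ≤ a := by
            by_contra h
            exact hK1 (by omega)
          exact ⟨a - 1, by omega⟩)
      have hK1v : ∀ x ∈ K1, x = v := fun x hx => mem_singleton.1 (hK1S hx)
      have hK12 : K1 ≠ K2 := by
        rintro rfl
        obtain ⟨x, hx⟩ := hQ'.ne K1 hK1Q
        have h3 := hK2S hx
        rw [mem_erase] at h3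
        exact h3.1 (hK1v x hx)
      have hnew : ∀ L ∈ Q', L ⊆ K → L ∉ (Q.erase K).filter fun K => Odd K.card := by
        intro L hL hLK h
        rw [mem_filter, mem_erase] at h
        obtain ⟨x, hx⟩ := hQ'.ne L hL
        exact disjoint_left.1 (hQ.kK L h.1.2 K hK h.1.1) hx (hLK hx)
      have hK1K : K1 ⊆ K := by
        intro x hx
        rw [hK1v x hx]
        exact hv
      have hK2K : K2 ⊆ K := hK2S.trans ((erase_subset _ _).trans (erase_subset _ _))
      have hsub : insert K1 (insert K2 ((Q.erase K).filter fun K => Odd K.card)) ⊆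
          Q'.filter fun K => Odd K.card := by
        intro L hL
        rw [mem_filter]
        rcases mem_insert.1 hL with h | h
        · rw [h]; exact ⟨hK1Q, hK1o⟩
        rcases mem_insert.1 h with h | h
        · rw [h]; exact ⟨hK2Q, hK2o⟩
        · rw [mem_filter] at h
          exact ⟨hsv h.1, h.2⟩
      have hc := card_le_card hsub
      rw [card_insert_of_notMem (by
          rw [mem_insert]
          rintro (h | h)
          · exact hK12 h
          · exact hnew K1 hK1Q hK1K h),
        card_insert_of_notMem (hnew K2 hK2Q hK2K)] at hc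
      have hc2 : oc Q = ((Q.erase K).filter fun K => Odd K.card).card + 1 := by
        have hKf : K ∈ Q.filter fun K => Odd K.card := mem_filter.2 ⟨hK, hodd K hK⟩
        have h3 : (Q.erase K).filter (fun K => Odd K.card) =
            (Q.filter fun K => Odd K.card).erase K := by
          rw [filter_erase]
        rw [h3, card_erase_of_mem hKf]
        have h4 : 0 < (Q.filter fun K => Odd K.card).card := card_pos.2 ⟨K, hKf⟩
        unfold oc
        omega
      have hc3 : oc Q' = (Q'.filter fun K => Odd K.card).card := rfl
      omega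
    omega
  -- (c) the barrier
  have hocQ : oc Q = Q.card := by
    unfold oc
    rw [filter_true_of_mem (fun K hK => hodd K hK)]
  have hpar : Even (T.card + Q.card) := by
    have hev := even_card hC.mm hC.mv
    have h3 := ((h1 V r hs).2 T Q hQ (univ \ T) disjoint_sdiff (by
      intro x _ y _
      by_cases hy : y ∈ T
      · exact Or.inr hy
      · left; rw [mem_sdiff]; exact ⟨mem_univ _, hy⟩)).2
    rw [filter_true_of_mem (fun K hK => by
      intro x hx
      rw [mem_sdiff]
      exact ⟨mem_univ _, disjoint_right.1 (hQ.dis K hK) hx⟩)] at h3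
    have h4 : (univ \ T).card + T.card = Fintype.card V := by
      rw [card_sdiff_add_card_eq_card (subset_univ T), card_univ]
    have h5 : ∀ s : Finset (Finset V), (∀ K ∈ s, Odd K.card) →
        Even (∑ K ∈ s, K.card + s.card) := by
      intro s hs'
      have : ∑ K ∈ s, K.card + s.card = ∑ K ∈ s, (K.card + 1) := by
        rw [sum_add_distrib, sum_const, smul_eq_mul, mul_one]
      rw [this]
      apply Finset.even_sum
      intro K hK
      exact (hs' K hK).add_one
    have h6 := h5 Q hodd
    rw [← h3] at h6
    rw [← h4] at hev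
    rw [Nat.even_iff] at hev h6 ⊢
    omega
  have hsur : T.card + 2 ≤ Q.card := by
    rw [hocQ] at hlt
    rw [Nat.even_iff] at hpar
    omega
  set I : Finset V := univ.filter (fun x => ({x} : Finset V) ∈ Q) with hI
  have hmI : ∀ x, x ∈ I ↔ ({x} : Finset V) ∈ Q := by
    intro x
    rw [hI, mem_filter]
    exact ⟨fun h => h.2, fun h => ⟨mem_univ _, h⟩⟩
  refine ⟨T, I, Q.filter (fun K => K.card ≠ 1), ?_, ?_, ?_⟩
  · refine ⟨?_, ?_, ?_, ?_, ?_, ?_, ?_, ?_, ?_⟩
    · rw [disjoint_right]
      intro x hx
      exact disjoint_right.1 (hQ.dis _ ((hmI x).1 hx)) (mem_singleton_self x)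
    · intro K hK
      exact hQ.dis K (mem_filter.1 hK).1
    · intro K hK
      rw [mem_filter] at hK
      rw [disjoint_left]
      intro x hx hxK
      have hne : ({x} : Finset V) ≠ K := by
        rintro h
        exact hK.2 (by rw [← h, card_singleton])
      exact disjoint_left.1 (hQ.kK _ ((hmI x).1 hx) K hK.1 hne) (mem_singleton_self x) hxK
    · intro K hK K' hK' hne
      exact hQ.kK K (mem_filter.1 hK).1 K' (mem_filter.1 hK').1 hne
    · intro x hx
      have hx' := (hmI x).1 hx
      have hcl : ∀ y, r x y → y ≠ x → y ∈ T := by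
        intro y hxy hyx
        rcases hQ.cl _ hx' x (mem_singleton_self x) y hxy with h | h
        · exact absurd (mem_singleton.1 h) hyx
        · exact h
      refine ⟨?_, ?_, ?_⟩
      · exact hcl _ (Or.inl rfl) (hC.nv x)
      · apply hcl _ (Or.inr (Or.inl (n.apply_symm_apply x).symm))
        intro h
        apply hC.nv x
        have h3 := n.apply_symm_apply x
        rw [h] at h3
        exact h3
      · intro hxB
        exact hcl _ (Or.inr (Or.inr ⟨rfl, hxB⟩)) (hC.mv x)
    · intro K hK x hx
      have hcl := hQ.cl K (mem_filter.1 hK).1 x hx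
      exact ⟨hcl _ (Or.inl rfl), hcl _ (Or.inr (Or.inl (n.apply_symm_apply x).symm)),
        fun hxB => hcl _ (Or.inr (Or.inr ⟨rfl, hxB⟩))⟩
    · intro K hK
      exact hodd K (mem_filter.1 hK).1
    · intro K hK
      rw [mem_filter] at hK
      exact hbig K hK.1 hK.2
    · intro K hK
      exact hQ.con K (mem_filter.1 hK).1
  · intro x
    by_cases hxT : x ∈ T
    · exact Or.inl hxT
    · obtain ⟨K, hK, hxK⟩ := hQ.cov x hxT
      by_cases hK1 : K.card = 1
      · obtain ⟨y, hy⟩ := card_eq_one.1 hK1
        right; left
        rw [hmI]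
        rw [hy, mem_singleton] at hxK
        rw [hxK, ← hy]
        exact hK
      · right; right
        exact ⟨K, mem_filter.2 ⟨hK, hK1⟩, hxK⟩
  · have h3 : (Q.filter fun K => K.card = 1) = I.image (fun x => ({x} : Finset V)) := by
      ext K
      rw [mem_filter, mem_image]
      constructor
      · rintro ⟨hK, hK1⟩
        obtain ⟨y, hy⟩ := card_eq_one.1 hK1
        exact ⟨y, (hmI y).2 (by rw [← hy]; exact hK), hy.symm⟩
      · rintro ⟨x, hx, rfl⟩
        exact ⟨(hmI x).1 hx, card_singleton x⟩
    have h4 : (Q.filter fun K => K.card = 1).card = I.card := by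
      rw [h3, card_image_of_injective]
      intro x y hxy
      exact singleton_injective hxy
    have h5 := card_filter_add_card_filter_not (s := Q) (fun K => K.card = 1)
    rw [h4] at h5
    have h6 : (Q.filter fun K => ¬ K.card = 1) = Q.filter (fun K => K.card ≠ 1) := rfl
    rw [h6] at h5
    omega

end

end Pool.Agent.Helper94.FR
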