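import Pool.Agent.Helper92.FR.GoalsA

/-!
# Packet FR-KER (project of helper92, MP_481f43_lc): the one-dimensional kernel
-/

set_option autoImplicit false

namespace Pool.Agent.Helper94.FR

open MeasureTheory
open Pool.Agent.Helper92.FR

lemma cb_pos (M : ℕ) : (0 : ℝ) < (Nat.centralBinom M : ℝ) := by
  exact_mod_cast Nat.centralBinom_pos M

lemma kap_pos (h : ℝ) (M : ℕ) (hh : 0 < h) : 0 < kap h M := by
  unfold kap
  have := cb_pos M
  have := Real.pi_pos
  positivity

lemma kap_le (h : ℝ) (M : ℕ) (hh : 0 < h) (hM : 1 ≤ M) : kap h M ≤ h * M / Real.pi := by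
  unfold kap
  have h1 := cb_pos M
  have h2 := Real.pi_pos
  have h3 : (4 : ℝ) ^ M ≤ 2 * M * (Nat.centralBinom M : ℝ) := by
    exact_mod_cast Nat.four_pow_le_two_mul_self_mul_centralBinom M (by omega)
  have h4 : (4 : ℝ) ^ M / (Nat.centralBinom M : ℝ) ≤ 2 * M := by
    rw [div_le_iff₀ h1]
    exact h3
  calc h / (2 * Real.pi) * (4 ^ M / (Nat.centralBinom M : ℝ))
      ≤ h / (2 * Real.pi) * (2 * M) := by
        apply mul_le_mul_of_nonneg_left h4
        positivity
    _ = h * M / Real.pi := by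
        field_simp

/-- central binomials as products -/
lemma cb_prod (M : ℕ) : (Nat.centralBinom M : ℝ) =
    4 ^ M * ∏ i ∈ Finset.range M, (2 * (i : ℝ) + 1) / (2 * i + 2) := by
  induction M with
  | zero => simp
  | succ n ih =>
    have h1 : ((n : ℝ) + 1) * (Nat.centralBinom (n + 1) : ℝ) =
        2 * (2 * n + 1) * (Nat.centralBinom n : ℝ) := by
      exact_mod_cast Nat.succ_mul_centralBinom_succ n
    have h2 : ((n : ℝ) + 1) ≠ 0 := by positivity
    rw [Finset.prod_range_succ, pow_succ]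
    have h3 : (Nat.centralBinom (n + 1) : ℝ) =
        2 * (2 * n + 1) * (Nat.centralBinom n : ℝ) / ((n : ℝ) + 1) := by
      rw [eq_div_iff h2, mul_comm]
      exact h1
    rw [h3, ih]
    have h4 : (2 * (n : ℝ) + 2) ≠ 0 := by positivity
    field_simp
    ring

lemma kap_int (h : ℝ) (M : ℕ) (hh : 0 < h) :
    (∫ y in (-(Real.pi / h))..(Real.pi / h), kap h M * Real.cos (h * y / 2) ^ (2 * M)) = 1 := by
  have h1 := cb_pos M
  have h2 := Real.pi_pos
  have e : ∀ y : ℝ, Real.cos (h * y / 2) ^ (2 * M) =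
      (fun x => Real.sin x ^ (2 * M)) (h / 2 * y + Real.pi / 2) := by
    intro y
    show Real.cos (h * y / 2) ^ (2 * M) = Real.sin (h / 2 * y + Real.pi / 2) ^ (2 * M)
    rw [Real.sin_add_pi_div_two]
    congr 2
    ring
  have hc : h / 2 ≠ 0 := by positivity
  rw [intervalIntegral.integral_const_mul]
  simp_rw [e]
  rw [intervalIntegral.integral_comp_mul_add (f := fun x => Real.sin x ^ (2 * M)) hc]
  have e1 : h / 2 * -(Real.pi / h) + Real.pi / 2 = 0 := by
    field_simp
    ring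
  have e2 : h / 2 * (Real.pi / h) + Real.pi / 2 = Real.pi := by
    field_simp
    ring
  rw [e1, e2, integral_sin_pow_even, smul_eq_mul]
  unfold kap
  have h3 := cb_prod M
  have h4 : (0 : ℝ) < 4 ^ M := by positivity
  have h5 : (0 : ℝ) < ∏ i ∈ Finset.range M, (2 * (i : ℝ) + 1) / (2 * i + 2) := by
    apply Finset.prod_pos
    intro i _
    positivity
  rw [h3]
  field_simp

/-- the Gaussian bound for the cosine -/
lemma cos_le_gauss (x : ℝ) (hx0 : 0 ≤ x) (hx : x ≤ Real.pi / 2) :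
    Real.cos x ≤ Real.exp (-(x ^ 2 / 2)) := by
  have hanti : AntitoneOn (fun t : ℝ => Real.exp (t ^ 2 / 2) * Real.cos t)
      (Set.Icc 0 (Real.pi / 2)) := by
    have hder : ∀ t : ℝ, HasDerivAt (fun t : ℝ => Real.exp (t ^ 2 / 2) * Real.cos t)
        (Real.exp (t ^ 2 / 2) * (2 * t / 2) * Real.cos t +
          Real.exp (t ^ 2 / 2) * (-Real.sin t)) t := by
      intro t
      have h1 : HasDerivAt (fun t : ℝ => t ^ 2 / 2) (2 * t / 2) t := by
        have := (hasDerivAt_pow 2 t).div_const 2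
        simpa using this
      exact (h1.exp).mul (Real.hasDerivAt_cos t)
    apply antitoneOn_of_deriv_nonpos (convex_Icc _ _)
    · exact fun t _ => (hder t).continuousAt.continuousWithinAt
    · exact fun t _ => (hder t).differentiableAt.differentiableWithinAt
    · intro t ht
      rw [interior_Icc] at ht
      rw [(hder t).deriv]
      have h1 : t < Real.tan t := Real.lt_tan ht.1 ht.2
      have h2 : 0 < Real.cos t :=
        Real.cos_pos_of_mem_Ioo ⟨by linarith [ht.1, Real.pi_pos], ht.2⟩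
      rw [Real.tan_eq_sin_div_cos, lt_div_iff₀ h2] at h1
      have h3 := Real.exp_pos (t ^ 2 / 2)
      have e : Real.exp (t ^ 2 / 2) * (2 * t / 2) * Real.cos t +
          Real.exp (t ^ 2 / 2) * (-Real.sin t) =
          Real.exp (t ^ 2 / 2) * (t * Real.cos t - Real.sin t) := by ring
      rw [e]
      apply mul_nonpos_of_nonneg_of_nonpos h3.le
      linarith
  have h1 := hanti (Set.left_mem_Icc.mpr (by positivity)) ⟨hx0, hx⟩ hx0
  have h2 : Real.exp (x ^ 2 / 2) * Real.cos x ≤ 1 := by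
    simpa using h1
  rw [Real.exp_neg]
  have h3 := Real.exp_pos (x ^ 2 / 2)
  rw [← one_div, le_div_iff₀ h3]
  linarith

lemma gauss (h : ℝ) (M : ℕ) (hh : 0 < h) (y : ℝ) (hy : |y| ≤ Real.pi / h) :
    Real.cos (h * y / 2) ^ (2 * M) ≤ Real.exp (-(M * h ^ 2 * y ^ 2 / 4)) := by
  have h1 : h * |y| / 2 ≤ Real.pi / 2 := by
    rw [le_div_iff₀ hh] at hy
    linarith
  have h0 : 0 ≤ h * |y| / 2 := by positivity
  have h2 : Real.cos (h * y / 2) = Real.cos (h * |y| / 2) := by
    rw [← Real.cos_abs, abs_div, abs_mul, abs_of_pos hh]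
    norm_num
  rw [h2]
  have h3 := cos_le_gauss _ h0 h1
  have h4 : 0 ≤ Real.cos (h * |y| / 2) :=
    Real.cos_nonneg_of_mem_Icc ⟨by linarith [Real.pi_pos], h1⟩
  calc Real.cos (h * |y| / 2) ^ (2 * M)
      ≤ Real.exp (-((h * |y| / 2) ^ 2 / 2)) ^ (2 * M) := pow_le_pow_left₀ h4 h3 _
    _ = Real.exp (-(M * h ^ 2 * y ^ 2 / 4)) := by
        have e : (h * |y| / 2) ^ 2 = h ^ 2 * y ^ 2 / 4 := by
          rw [div_pow, mul_pow, sq_abs]
          norm_num
        rw [← Real.exp_nat_mul, e]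
        congr 1
        push_cast
        ring

/-- the quotients of binomials -/
lemma wt_nat (M k : ℕ) (hk : k ≤ M) :
    ((2 * M).choose (M + k) : ℝ) = (Nat.centralBinom M : ℝ) *
      ∏ i ∈ Finset.range k, ((M : ℝ) - i) / ((M : ℝ) + i + 1) := by
  induction k with
  | zero => simp [Nat.centralBinom]
  | succ k ih =>
    have h1 := ih (by omega)
    rw [Finset.prod_range_succ, ← mul_assoc, ← h1]
    have h2 : (2 * M).choose (M + k + 1) * (M + k + 1) = (2 * M).choose (M + k) * (M - k) := by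
      rw [Nat.choose_succ_right_eq]
      congr 1
      omega
    have h3 : ((2 * M).choose (M + k + 1) : ℝ) * ((M : ℝ) + k + 1) =
        ((2 * M).choose (M + k) : ℝ) * ((M : ℝ) - k) := by
      rw [← Nat.cast_sub (by omega : k ≤ M)]
      exact_mod_cast h2
    have h4 : ((M : ℝ) + k + 1) ≠ 0 := by positivity
    have h5 : M + (k + 1) = M + k + 1 := by ring
    rw [h5, ← mul_div_assoc, eq_div_iff h4]
    exact h3

lemma wt_eq (M j : ℕ) (hj : j ≤ 2 * M) :
    ((2 * M).choose j : ℝ) = (Nat.centralBinom M : ℝ) * wt M ((j : ℤ) - M) := by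
  unfold wt
  rcases le_total M j with h | h
  · obtain ⟨k, rfl⟩ := Nat.exists_eq_add_of_le h
    have e : ((((M + k : ℕ) : ℤ) - M).natAbs) = k := by omega
    rw [e]
    exact wt_nat M k (by omega)
  · obtain ⟨k, rfl⟩ := Nat.exists_eq_add_of_le h
    have e : (((j : ℤ) - ((j + k : ℕ) : ℤ)).natAbs) = k := by omega
    rw [e, ← wt_nat (j + k) k (by omega)]
    have e2 : (2 * (j + k)).choose j = (2 * (j + k)).choose (j + k + k) := by
      apply Nat.choose_symm_of_eq_add
      ring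
    rw [e2]

lemma fourier (h : ℝ) (M : ℕ) (hh : 0 < h) (y : ℝ) :
    ((kap h M * Real.cos (h * y / 2) ^ (2 * M) : ℝ) : ℂ) =
    (h / (2 * Real.pi) : ℝ) * ∑ k ∈ Finset.Icc (-(M : ℤ)) M,
      (wt M k : ℂ) * Complex.exp (Complex.I * (h * k * y)) := by
  have hcb := cb_pos M
  have hcb' : ((Nat.centralBinom M : ℝ) : ℂ) ≠ 0 := by
    exact_mod_cast hcb.ne'
  have h4 : ((4 : ℂ)) ^ M ≠ 0 := pow_ne_zero _ (by norm_num)
  -- the binomial formula
  have h1 : (4 : ℂ) ^ M * ((Real.cos (h * y / 2) : ℝ) : ℂ) ^ (2 * M) =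
      ∑ j ∈ Finset.range (2 * M + 1), ((2 * M).choose j : ℂ) *
        Complex.exp (Complex.I * (h * ((j : ℤ) - M : ℤ) * y)) := by
    have h2 : (4 : ℂ) ^ M * ((Real.cos (h * y / 2) : ℝ) : ℂ) ^ (2 * M) =
        (Complex.exp (((h * y / 2 : ℝ) : ℂ) * Complex.I) +
          Complex.exp (-((h * y / 2 : ℝ) : ℂ) * Complex.I)) ^ (2 * M) := by
      rw [Complex.ofReal_cos, Complex.cos, pow_mul, pow_mul, ← mul_pow]
      congr 1
      ring
    rw [h2, add_pow]
    apply Finset.sum_congr rfl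
    intro j hj
    rw [Finset.mem_range] at hj
    rw [← Complex.exp_nat_mul, ← Complex.exp_nat_mul, ← Complex.exp_add, mul_comm]
    congr 2
    push_cast [Nat.cast_sub (by omega : j ≤ 2 * M)]
    ring
  have h2 : ∑ k ∈ Finset.Icc (-(M : ℤ)) M,
      (wt M k : ℂ) * Complex.exp (Complex.I * (h * k * y)) =
      ∑ j ∈ Finset.range (2 * M + 1), (wt M ((j : ℤ) - M) : ℂ) *
        Complex.exp (Complex.I * (h * ((j : ℤ) - M : ℤ) * y)) := by
    symm
    apply Finset.sum_nbij' (fun j : ℕ => ((j : ℤ) - M : ℤ)) (fun k : ℤ => (k + M).toNat)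
    · intro j hj
      rw [Finset.mem_range] at hj
      rw [Finset.mem_Icc]
      constructor <;> omega
    · intro k hk
      rw [Finset.mem_Icc] at hk
      rw [Finset.mem_range]
      omega
    · intro j hj
      show ((j : ℤ) - M + M).toNat = j
      omega
    · intro k hk
      rw [Finset.mem_Icc] at hk
      show (((k + M).toNat : ℕ) : ℤ) - M = k
      omega
    · intro j hj
      rfl
  rw [h2]
  have h3 : ∀ j ∈ Finset.range (2 * M + 1), ((2 * M).choose j : ℂ) *
        Complex.exp (Complex.I * (h * ((j : ℤ) - M : ℤ) * y)) =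
      ((Nat.centralBinom M : ℝ) : ℂ) * ((wt M ((j : ℤ) - M) : ℂ) *
        Complex.exp (Complex.I * (h * ((j : ℤ) - M : ℤ) * y))) := by
    intro j hj
    rw [Finset.mem_range] at hj
    have h5 := wt_eq M j (by omega)
    have h6 : ((2 * M).choose j : ℂ) = ((Nat.centralBinom M : ℝ) : ℂ) *
        (wt M ((j : ℤ) - M) : ℂ) := by
      rw [← Complex.ofReal_mul, ← h5]
      push_cast
      rfl
    rw [h6, mul_assoc]
  rw [Finset.sum_congr rfl h3, ← Finset.mul_sum] at h1
  unfold kap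
  push_cast
  push_cast at h1 hcb'
  have h7 : (Complex.cos ((h : ℂ) * y / 2)) ^ (2 * M) = (Nat.centralBinom M : ℂ) *
      (∑ j ∈ Finset.range (2 * M + 1), (wt M ((j : ℤ) - M) : ℂ) *
        Complex.exp (Complex.I * (h * ((j : ℂ) - M) * y))) / (4 : ℂ) ^ M := by
    rw [eq_div_iff h4, mul_comm, h1]
  rw [h7]
  generalize (∑ j ∈ Finset.range (2 * M + 1), (wt M ((j : ℤ) - M) : ℂ) *
        Complex.exp (Complex.I * (h * ((j : ℂ) - M) * y))) = S
  have hpi : (Real.pi : ℂ) ≠ 0 := by exact_mod_cast Real.pi_ne_zero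
  field_simp

theorem ker : KerStmt := by
  intro h M hh hM
  exact ⟨kap_pos h M hh, kap_le h M hh hM, kap_int h M hh, fun y hy => gauss h M hh y hy,
    fun y => fourier h M hh y⟩

end Pool.Agent.Helper94.FR
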